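import Mathlib

/-!
# Derivatives in all directions from derivatives along a fan (row DCV of K_POLY)

`r β j` are the partial derivatives of order `β` in the base variables and `j` in the passive
variable, at one point.
-/

set_option autoImplicit false

namespace Pool.KPO

open Finset

/-- **Row DCV.** If the derivatives of all partial derivatives along `n` directions whose base
components form a well conditioned basis are small, then all mixed partial derivatives are bounded
by the pure ones in the passive variable. -/
theorem dcv {n : ℕ} (r : (Fin n → ℕ) → ℕ → ℝ) (b c : Fin n → Fin n → ℝ) (ν : Fin n → ℝ)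
    (A δ θ : ℝ) (hA : 0 ≤ A) (hδ : 0 ≤ δ) (hθ : 0 ≤ θ)
    (hcb : ∀ a a' : Fin n, ∑ i, c a i * b i a' = if a = a' then 1 else 0)
    (hc : ∀ a i, |c a i| ≤ A) (hν : ∀ i, |ν i| ≤ A)
    (hdir : ∀ β j i, δ * |(∑ a, b i a * r (β + Pi.single a 1) j) + ν i * r β (j + 1)| ≤
      θ * |r β j|)
    (M : ℕ → ℝ) (hM : ∀ j, |r 0 j| ≤ M j) (hM' : ∀ j, δ * M (j + 1) ≤ M j) :
    ∀ (s : ℕ) (β : Fin n → ℕ), ∑ a, β a = s → ∀ j,
      δ ^ s * |r β j| ≤ (n * A * (θ + A)) ^ s * M j := by
  classical
  have hM0 : ∀ j, 0 ≤ M j := fun j => (abs_nonneg _).trans (hM j)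
  -- one derivative
  have step : ∀ (β : Fin n → ℕ) (a : Fin n) (j : ℕ),
      δ * |r (β + Pi.single a 1) j| ≤ n * A * θ * |r β j| + n * A * A * (δ * |r β (j + 1)|) := by
    intro β a j
    have e : r (β + Pi.single a 1) j =
        (∑ i, c a i * ((∑ a', b i a' * r (β + Pi.single a' 1) j) + ν i * r β (j + 1))) -
          ∑ i, c a i * ν i * r β (j + 1) := by
      rw [← Finset.sum_sub_distrib]
      have e1 : ∀ i, c a i * ((∑ a', b i a' * r (β + Pi.single a' 1) j) + ν i * r β (j + 1)) -
          c a i * ν i * r β (j + 1) = ∑ a', c a i * b i a' * r (β + Pi.single a' 1) j := by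
        intro i
        rw [mul_add, Finset.mul_sum]
        have : c a i * (ν i * r β (j + 1)) - c a i * ν i * r β (j + 1) = 0 := by ring
        rw [add_sub_assoc, this, add_zero]
        exact Finset.sum_congr rfl fun a' _ => by ring
      rw [Finset.sum_congr rfl fun i _ => e1 i, Finset.sum_comm]
      have e2 : ∀ a', ∑ i, c a i * b i a' * r (β + Pi.single a' 1) j =
          (if a = a' then 1 else 0) * r (β + Pi.single a' 1) j := by
        intro a'
        rw [← Finset.sum_mul, hcb a a']
      rw [Finset.sum_congr rfl fun a' _ => e2 a']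
      simp
    have h1 : δ * |∑ i, c a i * ((∑ a', b i a' * r (β + Pi.single a' 1) j) +
        ν i * r β (j + 1))| ≤ n * A * θ * |r β j| := by
      calc δ * |∑ i, c a i * ((∑ a', b i a' * r (β + Pi.single a' 1) j) + ν i * r β (j + 1))|
          ≤ δ * ∑ i, |c a i * ((∑ a', b i a' * r (β + Pi.single a' 1) j) + ν i * r β (j + 1))| :=
            mul_le_mul_of_nonneg_left (Finset.abs_sum_le_sum_abs _ _) hδ
        _ = ∑ i, |c a i| * (δ * |(∑ a', b i a' * r (β + Pi.single a' 1) j) +
              ν i * r β (j + 1)|) := by
            rw [Finset.mul_sum]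
            refine Finset.sum_congr rfl fun i _ => ?_
            rw [abs_mul]
            ring
        _ ≤ ∑ _i : Fin n, A * (θ * |r β j|) := by
            refine Finset.sum_le_sum fun i _ => ?_
            exact mul_le_mul (hc a i) (hdir β j i) (by positivity) hA
        _ = n * A * θ * |r β j| := by
            rw [Finset.sum_const, Finset.card_univ, Fintype.card_fin, nsmul_eq_mul]
            ring
    have h2 : δ * |∑ i, c a i * ν i * r β (j + 1)| ≤ n * A * A * (δ * |r β (j + 1)|) := by
      calc δ * |∑ i, c a i * ν i * r β (j + 1)|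
          ≤ δ * ∑ i, |c a i * ν i * r β (j + 1)| :=
            mul_le_mul_of_nonneg_left (Finset.abs_sum_le_sum_abs _ _) hδ
        _ = ∑ i, |c a i| * |ν i| * (δ * |r β (j + 1)|) := by
            rw [Finset.mul_sum]
            refine Finset.sum_congr rfl fun i _ => ?_
            rw [abs_mul, abs_mul]
            ring
        _ ≤ ∑ _i : Fin n, A * A * (δ * |r β (j + 1)|) := by
            refine Finset.sum_le_sum fun i _ => ?_
            refine mul_le_mul_of_nonneg_right ?_ (by positivity)
            exact mul_le_mul (hc a i) (hν i) (abs_nonneg _) hA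
        _ = n * A * A * (δ * |r β (j + 1)|) := by
            rw [Finset.sum_const, Finset.card_univ, Fintype.card_fin, nsmul_eq_mul]
            ring
    rw [e]
    calc δ * |(∑ i, c a i * ((∑ a', b i a' * r (β + Pi.single a' 1) j) + ν i * r β (j + 1))) -
          ∑ i, c a i * ν i * r β (j + 1)|
        ≤ δ * (|∑ i, c a i * ((∑ a', b i a' * r (β + Pi.single a' 1) j) + ν i * r β (j + 1))| +
          |∑ i, c a i * ν i * r β (j + 1)|) := mul_le_mul_of_nonneg_left (abs_sub _ _) hδ
      _ ≤ _ := by
        rw [mul_add]
        linarith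
  intro s
  induction s with
  | zero =>
    intro β hβ j
    have : β = 0 := by
      funext a
      have := (Finset.sum_eq_zero_iff.mp hβ) a (Finset.mem_univ a)
      simpa using this
    subst this
    simpa using hM j
  | succ s ih =>
    intro β hβ j
    -- remove one derivative
    obtain ⟨a, ha⟩ : ∃ a, 0 < β a := by
      by_contra hcon
      push Not at hcon
      have : ∑ a, β a = 0 := Finset.sum_eq_zero fun a _ => by have := hcon a; omega
      omega
    set β' : Fin n → ℕ := β - Pi.single a 1 with hβ'
    have hle : Pi.single a 1 ≤ β := by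
      intro a'
      rcases eq_or_ne a' a with e | e
      · subst e
        rw [Pi.single_eq_same]
        exact ha
      · simp [e]
    have hadd : β' + Pi.single a 1 = β := tsub_add_cancel_of_le hle
    have hsum : ∑ a, β' a = s := by
      have h1 : ∑ a', (β' + (Pi.single a 1 : Fin n → ℕ)) a' = s + 1 := by rw [hadd, hβ]
      simp only [Pi.add_apply, Finset.sum_add_distrib, Finset.sum_pi_single', Finset.mem_univ,
        if_true] at h1
      omega
    have h1 := step β' a j
    rw [hadd] at h1
    have h2 := ih β' hsum j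
    have h3 := ih β' hsum (j + 1)
    have hB : 0 ≤ (n : ℝ) * A * (θ + A) := by positivity
    have hδs : 0 ≤ δ ^ s := pow_nonneg hδ s
    calc δ ^ (s + 1) * |r β j| = δ ^ s * (δ * |r β j|) := by ring
      _ ≤ δ ^ s * (n * A * θ * |r β' j| + n * A * A * (δ * |r β' (j + 1)|)) :=
          mul_le_mul_of_nonneg_left h1 hδs
      _ = n * A * θ * (δ ^ s * |r β' j|) + n * A * A * (δ * (δ ^ s * |r β' (j + 1)|)) := by ring
      _ ≤ n * A * θ * ((n * A * (θ + A)) ^ s * M j) +
          n * A * A * (δ * ((n * A * (θ + A)) ^ s * M (j + 1))) := by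
          refine add_le_add (mul_le_mul_of_nonneg_left h2 (by positivity)) ?_
          exact mul_le_mul_of_nonneg_left (mul_le_mul_of_nonneg_left h3 hδ) (by positivity)
      _ = n * A * θ * (n * A * (θ + A)) ^ s * M j +
          n * A * A * (n * A * (θ + A)) ^ s * (δ * M (j + 1)) := by ring
      _ ≤ n * A * θ * (n * A * (θ + A)) ^ s * M j + n * A * A * (n * A * (θ + A)) ^ s * M j := by
          refine add_le_add le_rfl ?_
          exact mul_le_mul_of_nonneg_left (hM' j) (by positivity)
      _ = (n * A * (θ + A)) ^ (s + 1) * M j := by ring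

end Pool.KPO
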