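import Mathlib

/-!
# Polynomials are nearly constant away from their roots (row NCT of K_POLY)
-/

set_option autoImplicit false

namespace Pool.KPO

open Polynomial

/-- A product of factors close to one. -/
theorem prod_sub_one_le (s : Multiset ℂ) (κ : ℝ) (hκ : 0 ≤ κ) (h : ∀ z ∈ s, ‖z‖ ≤ κ) :
    ‖(s.map fun z => 1 + z).prod - 1‖ ≤ (1 + κ) ^ (Multiset.card s) - 1 ∧
      ‖(s.map fun z => 1 + z).prod‖ ≤ (1 + κ) ^ (Multiset.card s) := by
  induction s using Multiset.induction_on with
  | empty => simp
  | cons a s ih =>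
    have ha : ‖a‖ ≤ κ := h a (Multiset.mem_cons_self a s)
    obtain ⟨i1, i2⟩ := ih fun z hz => h z (Multiset.mem_cons_of_mem hz)
    rw [Multiset.map_cons, Multiset.prod_cons, Multiset.card_cons]
    have h1 : (1 + a) * (s.map fun z => 1 + z).prod - 1 =
        ((s.map fun z => 1 + z).prod - 1) + a * (s.map fun z => 1 + z).prod := by ring
    have h2 : ‖(1 + a) * (s.map fun z => 1 + z).prod - 1‖ ≤ (1 + κ) ^ (Multiset.card s + 1) - 1 := by
      rw [h1]
      refine (norm_add_le _ _).trans ?_
      rw [norm_mul]
      have h3 : ‖a‖ * ‖(s.map fun z => 1 + z).prod‖ ≤ κ * (1 + κ) ^ (Multiset.card s) :=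
        mul_le_mul ha i2 (norm_nonneg _) hκ
      have h4 : (1 + κ) ^ (Multiset.card s + 1) =
          (1 + κ) ^ (Multiset.card s) + κ * (1 + κ) ^ (Multiset.card s) := by ring
      linarith
    refine ⟨h2, ?_⟩
    rw [norm_mul]
    have h3 : ‖1 + a‖ ≤ 1 + κ := (norm_add_le _ _).trans (by rw [norm_one]; linarith)
    calc ‖1 + a‖ * ‖(s.map fun z => 1 + z).prod‖ ≤ (1 + κ) * (1 + κ) ^ (Multiset.card s) :=
          mul_le_mul h3 i2 (norm_nonneg _) (by linarith)
      _ = (1 + κ) ^ (Multiset.card s + 1) := by ring

/-- A complex polynomial is nearly constant away from its roots. -/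
theorem nct_complex (p : ℂ[X]) (T t : ℂ) (r κ : ℝ) (hr : 0 < r) (hκ : 0 ≤ κ)
    (hroots : ∀ z ∈ p.roots, r ≤ ‖T - z‖) (ht : ‖t - T‖ ≤ κ * r) :
    ‖p.eval t - p.eval T‖ ≤ ((1 + κ) ^ p.natDegree - 1) * ‖p.eval T‖ := by
  have hs := IsAlgClosed.splits p
  have hcard : Multiset.card p.roots = p.natDegree := (splits_iff_card_roots.mp hs)
  have hev : ∀ x : ℂ, p.eval x = p.leadingCoeff * (p.roots.map fun z => x - z).prod := by
    intro x
    have h := hs.eq_prod_roots
    conv_lhs => rw [h]
    rw [eval_mul, eval_C, eval_multiset_prod, Multiset.map_map]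
    simp
  have hne : ∀ z ∈ p.roots, T - z ≠ 0 := by
    intro z hz h0
    have := hroots z hz
    rw [h0, norm_zero] at this
    linarith
  have hmul : (p.roots.map fun z => t - z).prod =
      (p.roots.map fun z => T - z).prod * (p.roots.map fun z => 1 + (t - T) / (T - z)).prod := by
    rw [← Multiset.prod_map_mul]
    congr 1
    refine Multiset.map_congr rfl fun z hz => ?_
    have := hne z hz
    field_simp
    ring
  have hb := (prod_sub_one_le (p.roots.map fun z => (t - T) / (T - z)) κ hκ (by
    intro w hw
    obtain ⟨z, hz, rfl⟩ := Multiset.mem_map.mp hw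
    rw [norm_div]
    have h1 := hroots z hz
    rw [div_le_iff₀ (by linarith)]
    exact ht.trans (mul_le_mul_of_nonneg_left h1 hκ))).1
  rw [Multiset.map_map, Multiset.card_map, hcard] at hb
  have e : p.eval t - p.eval T = p.eval T *
      ((p.roots.map ((fun z => 1 + z) ∘ fun z => (t - T) / (T - z))).prod - 1) := by
    rw [hev t, hev T, hmul]
    simp only [Function.comp_def]
    ring
  rw [e, norm_mul, mul_comm]
  exact mul_le_mul_of_nonneg_right hb (norm_nonneg _)

/-- The derivative of a complex polynomial away from its roots. -/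
theorem nct_complex_deriv (p : ℂ[X]) (T : ℂ) (r : ℝ) (hr : 0 < r)
    (hroots : ∀ z ∈ p.roots, r ≤ ‖T - z‖) :
    ‖p.derivative.eval T‖ ≤ p.natDegree / r * ‖p.eval T‖ := by
  by_cases h0 : p.eval T = 0
  · by_cases hp : p = 0
    · simp [hp]
    · have h1 := hroots T ((mem_roots hp).mpr h0)
      rw [sub_self, norm_zero] at h1
      linarith
  · have hs := IsAlgClosed.splits p
    have hcard : Multiset.card p.roots = p.natDegree := (splits_iff_card_roots.mp hs)
    have h1 := hs.eval_derivative_div_eval_of_ne_zero h0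
    have h2 : ‖p.derivative.eval T / p.eval T‖ ≤ p.natDegree / r := by
      rw [h1]
      have h3 : ∀ s : Multiset ℂ, (∀ z ∈ s, r ≤ ‖T - z‖) →
          ‖(s.map fun z => 1 / (T - z)).sum‖ ≤ Multiset.card s / r := by
        intro s
        induction s using Multiset.induction_on with
        | empty => simp
        | cons a s ih =>
          intro hsr
          rw [Multiset.map_cons, Multiset.sum_cons, Multiset.card_cons]
          refine (norm_add_le _ _).trans ?_
          have h4 := ih fun z hz => hsr z (Multiset.mem_cons_of_mem hz)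
          have h5 : ‖1 / (T - a)‖ ≤ 1 / r := by
            rw [norm_div, norm_one]
            exact one_div_le_one_div_of_le hr (hsr a (Multiset.mem_cons_self a s))
          push_cast
          rw [add_div]
          linarith
      rw [← hcard]
      exact h3 p.roots hroots
    rw [norm_div, div_le_iff₀ (norm_pos_iff.mpr h0)] at h2
    exact h2

/-- **Row NCT.** A real polynomial of degree at most `D` is nearly constant on every interval which
is far away, compared with its length, from at most `D` centres, and its derivative is small compared with it. -/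
theorem nct (p : ℝ[X]) (D : ℕ) (hD : p.natDegree ≤ D) :
    ∃ S : Finset ℝ, S.card ≤ D ∧ ∀ (T t r κ : ℝ), 0 < r → 0 ≤ κ → (∀ s ∈ S, r ≤ |T - s|) →
      (|t - T| ≤ κ * r → |p.eval t - p.eval T| ≤ ((1 + κ) ^ D - 1) * |p.eval T|) ∧
      |p.derivative.eval T| ≤ D / r * |p.eval T| := by
  classical
  set q : ℂ[X] := p.map (algebraMap ℝ ℂ) with hq
  refine ⟨(q.roots.map Complex.re).toFinset, ?_, ?_⟩
  · refine (Multiset.toFinset_card_le _).trans ?_
    rw [Multiset.card_map]
    refine (Polynomial.card_roots' q).trans ?_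
    exact (natDegree_map_le).trans hD
  · intro T t r κ hr hκ hS
    have hroots : ∀ z ∈ q.roots, r ≤ ‖(T : ℂ) - z‖ := by
      intro z hz
      have h1 := hS z.re (Multiset.mem_toFinset.mpr (Multiset.mem_map_of_mem _ hz))
      refine h1.trans ?_
      have h2 := Complex.abs_re_le_norm ((T : ℂ) - z)
      rw [Complex.sub_re, Complex.ofReal_re] at h2
      exact h2
    have hev : ∀ x : ℝ, q.eval (x : ℂ) = ((p.eval x : ℝ) : ℂ) := by
      intro x
      rw [hq, eval_map]
      exact eval₂_at_apply (algebraMap ℝ ℂ) x
    have hev' : q.derivative.eval (T : ℂ) = ((p.derivative.eval T : ℝ) : ℂ) := by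
      rw [hq, derivative_map, eval_map]
      exact eval₂_at_apply (algebraMap ℝ ℂ) T
    have hdeg : q.natDegree ≤ D := (natDegree_map_le).trans hD
    constructor
    · intro ht
      have ht' : ‖(t : ℂ) - (T : ℂ)‖ ≤ κ * r := by
        rw [← Complex.ofReal_sub, Complex.norm_real]
        exact ht
      have h := nct_complex q T t r κ hr hκ hroots ht'
      rw [hev t, hev T, ← Complex.ofReal_sub, Complex.norm_real, Complex.norm_real] at h
      refine h.trans ?_
      refine mul_le_mul_of_nonneg_right ?_ (norm_nonneg _)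
      have h3 : (1 + κ) ^ q.natDegree ≤ (1 + κ) ^ D := pow_le_pow_right₀ (by linarith) hdeg
      linarith
    · have h := nct_complex_deriv q T r hr hroots
      rw [hev T, hev', Complex.norm_real, Complex.norm_real] at h
      refine h.trans ?_
      refine mul_le_mul_of_nonneg_right ?_ (norm_nonneg _)
      have h3 : (q.natDegree : ℝ) ≤ D := by exact_mod_cast hdeg
      exact div_le_div_of_nonneg_right h3 hr.le

end Pool.KPO
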