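import Pool.Agent.H9.K2.Defs2

/-!
# Pointwise Remez inequality (row PRZ of K_POLY), abstract form
-/

set_option autoImplicit false

namespace Pool.KPO

open Finset Real
open Pool.Agent.H49.Ent Pool.Agent.H32.Dense Pool.STK Pool.KA

/-- Summation over the values of a pair. -/
lemma sum_pair_le {Ω S U : Type} [Fintype Ω] {p : Ω → ℝ} (hp : ∀ ω, 0 ≤ p ω) (T : Ω → S)
    (l : Ω → U) (E : Finset S) (hT : ∀ ω, T ω ∈ E) (g : S → U → ℝ) (hg : ∀ t b, 0 ≤ g t b) (C : ℝ)
    (hC : ∀ b, ∑ t ∈ E, g t b ≤ C) :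
    ∑ ω, p ω * (g (T ω) (l ω) / cpr p T l ω) ≤ C * ∑ ω, p ω := by
  classical
  have e1 : ∑ ω, p ω * (g (T ω) (l ω) / cpr p T l ω) =
      ∑ x ∈ univ.image (fun ω => (T ω, l ω)), law p (fun ω => (T ω, l ω)) x *
        (g x.1 x.2 / (law p (fun ω => (T ω, l ω)) x / law p l x.2)) :=
    sum_mul_eq_sum_image p (fun ω => (T ω, l ω)) (fun x => g x.1 x.2 /
      (law p (fun ω => (T ω, l ω)) x / law p l x.2))
  rw [e1]
  have h1 : ∀ x ∈ univ.image (fun ω => (T ω, l ω)), law p (fun ω => (T ω, l ω)) x *
        (g x.1 x.2 / (law p (fun ω => (T ω, l ω)) x / law p l x.2)) ≤ law p l x.2 * g x.1 x.2 := by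
    intro x _
    have h2 := law_nonneg hp l x.2
    have h3 := law_nonneg hp (fun ω => (T ω, l ω)) x
    have h4 := hg x.1 x.2
    rcases h3.eq_or_lt with h5 | h5
    · rw [← h5, zero_mul]
      positivity
    · rcases h2.eq_or_lt with h6 | h6
      · rw [← h6, div_zero, div_zero, mul_zero, zero_mul]
      · refine le_of_eq ?_
        field_simp
  refine (Finset.sum_le_sum h1).trans ?_
  have h2 : ∑ x ∈ univ.image (fun ω => (T ω, l ω)), law p l x.2 * g x.1 x.2 ≤
      ∑ x ∈ E ×ˢ univ.image l, law p l x.2 * g x.1 x.2 := by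
    refine Finset.sum_le_sum_of_subset_of_nonneg ?_ ?_
    · intro x hx
      obtain ⟨ω, _, rfl⟩ := Finset.mem_image.mp hx
      exact Finset.mem_product.mpr ⟨hT ω, Finset.mem_image_of_mem l (Finset.mem_univ ω)⟩
    · intro x _ _
      exact mul_nonneg (law_nonneg hp l x.2) (hg x.1 x.2)
  refine h2.trans ?_
  rw [Finset.sum_product_right]
  have h3 : ∀ b ∈ univ.image l, ∑ t ∈ E, law p l b * g t b ≤ law p l b * C := by
    intro b _
    rw [← Finset.mul_sum]
    exact mul_le_mul_of_nonneg_left (hC b) (law_nonneg hp l b)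
  refine (Finset.sum_le_sum h3).trans (le_of_eq ?_)
  rw [← Finset.sum_mul, sum_law, mul_comm]

open Classical in
/-- **Row PRZ.** `T` is a time in a set `E` of `N` elements, `l` the remaining data, `w` a positive
weight whose inverse has a bounded mean over `E`, for every value of `l`. Then the weight at the
time `T` is at least `η` divided by the density of `T` given `l`, outside probability `C η`. -/
theorem prz {Ω S U : Type} [Fintype Ω] {p : Ω → ℝ} (hp : IsLaw p) (T : Ω → S)
    (l : Ω → U) (E : Finset S) (hT : ∀ ω, T ω ∈ E) (w : S → U → ℝ) (hw : ∀ t b, 0 < w t b)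
    (N C η : ℝ) (hN : 0 < N) (hη : 0 ≤ η) (hC : ∀ b, ∑ t ∈ E, 1 / w t b ≤ C * N) :
    (∑ ω, if w (T ω) (l ω) * (N * cpr p T l ω) < η then p ω else 0) ≤ C * η := by
  have h1 := sum_pair_le hp.nonneg T l E hT (fun t b => 1 / w t b)
    (fun t b => (one_div_pos.mpr (hw t b)).le) (C * N) hC
  rw [hp.sum_one, mul_one] at h1
  have h2 : (∑ ω, if w (T ω) (l ω) * (N * cpr p T l ω) < η then p ω else 0) ≤
      ∑ ω, η / N * (p ω * (1 / w (T ω) (l ω) / cpr p T l ω)) := by
    refine Finset.sum_le_sum fun ω _ => ?_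
    have hc0 : 0 ≤ cpr p T l ω := by
      unfold cpr
      exact div_nonneg (law_nonneg hp.nonneg _ _) (law_nonneg hp.nonneg _ _)
    have hw0 := hw (T ω) (l ω)
    have hp0 := hp.nonneg ω
    split_ifs with h
    · rcases hp0.eq_or_lt with h3 | h3
      · rw [← h3, zero_mul, mul_zero]
      · have hc1 : 0 < cpr p T l ω := by
          unfold cpr
          refine div_pos (law_pos hp.nonneg _ h3) (law_pos hp.nonneg _ h3)
        have h4 : 1 ≤ η / N * (1 / w (T ω) (l ω) / cpr p T l ω) := by
          have e : η / N * (1 / w (T ω) (l ω) / cpr p T l ω) =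
              η / (w (T ω) (l ω) * (N * cpr p T l ω)) := by
            field_simp
          rw [e, one_le_div (by positivity)]
          exact h.le
        calc p ω = p ω * 1 := (mul_one _).symm
          _ ≤ p ω * (η / N * (1 / w (T ω) (l ω) / cpr p T l ω)) :=
              mul_le_mul_of_nonneg_left h4 hp0
          _ = _ := by ring
    · positivity
  refine h2.trans ?_
  rw [← Finset.mul_sum]
  calc η / N * ∑ ω, p ω * (1 / w (T ω) (l ω) / cpr p T l ω) ≤ η / N * (C * N) :=
        mul_le_mul_of_nonneg_left h1 (by positivity)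
    _ = C * η := by
        field_simp

open Classical in
/-- The likelihood ratio of two laws is rarely small (all inequalities of (2.1) in K_POLY):
the probability that the conditional probability of `Y` given `(Z, X)` is less than `η` times its
conditional probability given `X` is at most `η`. -/
theorem pbg {Ω S U V : Type} [Fintype Ω] {p : Ω → ℝ} (hp : IsLaw p) (Y : Ω → S) (X : Ω → U)
    (Z : Ω → V) (η : ℝ) (hη : 0 ≤ η) :
    (∑ ω, if cpr p Y (fun ω => (Z ω, X ω)) ω < η * cpr p Y X ω then p ω else 0) ≤ η := by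
  have hcp : ∀ (W : Ω → U) ω, 0 < p ω → 0 < cpr p Y W ω := by
    intro W ω h3
    unfold cpr
    exact div_pos (law_pos hp.nonneg _ h3) (law_pos hp.nonneg _ h3)
  have hcp' : ∀ ω, 0 < p ω → 0 < cpr p Y (fun ω => (Z ω, X ω)) ω := by
    intro ω h3
    unfold cpr
    exact div_pos (law_pos hp.nonneg _ h3) (law_pos hp.nonneg _ h3)
  -- the conditional law of `Y` given `X`
  set g : S → V × U → ℝ := fun s b => law p (fun w => (Y w, X w)) (s, b.2) / law p X b.2 with hg
  have hg0 : ∀ s b, 0 ≤ g s b := fun s b =>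
    div_nonneg (law_nonneg hp.nonneg _ _) (law_nonneg hp.nonneg _ _)
  have hsum : ∀ b, ∑ s ∈ univ.image Y, g s b ≤ 1 := by
    intro b
    rw [← Finset.sum_div]
    have h1 : ∑ s ∈ univ.image Y, law p (fun w => (Y w, X w)) (s, b.2) = law p X b.2 := by
      unfold law
      rw [Finset.sum_comm]
      refine Finset.sum_congr rfl fun ω _ => ?_
      by_cases h : X ω = b.2
      · rw [Finset.sum_eq_single (Y ω)]
        · simp [h]
        · intro s _ hs
          rw [if_neg]
          rintro h'
          exact hs (Prod.mk.inj h').1.symm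
        · intro h'
          exact absurd (Finset.mem_image_of_mem Y (Finset.mem_univ ω)) h'
      · rw [if_neg h]
        refine Finset.sum_eq_zero fun s _ => ?_
        rw [if_neg]
        rintro h'
        exact h (Prod.mk.inj h').2
    rw [h1]
    exact div_self_le_one _
  have h1 := sum_pair_le hp.nonneg Y (fun ω => (Z ω, X ω)) (univ.image Y)
    (fun ω => Finset.mem_image_of_mem Y (Finset.mem_univ ω)) g hg0 1 hsum
  rw [hp.sum_one, mul_one] at h1
  have h2 : (∑ ω, if cpr p Y (fun ω => (Z ω, X ω)) ω < η * cpr p Y X ω then p ω else 0) ≤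
      ∑ ω, η * (p ω * (g (Y ω) (Z ω, X ω) / cpr p Y (fun ω => (Z ω, X ω)) ω)) := by
    refine Finset.sum_le_sum fun ω _ => ?_
    have hp0 := hp.nonneg ω
    rcases hp0.eq_or_lt with h3 | h3
    · rw [← h3]
      simp
    · have hc := hcp' ω h3
      have hgω : g (Y ω) (Z ω, X ω) = cpr p Y X ω := rfl
      rw [hgω]
      split_ifs with h
      · have h4 : 1 ≤ η * (cpr p Y X ω / cpr p Y (fun ω => (Z ω, X ω)) ω) := by
          rw [← mul_div_assoc, one_le_div hc]
          exact h.le
        calc p ω = p ω * 1 := (mul_one _).symm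
          _ ≤ p ω * (η * (cpr p Y X ω / cpr p Y (fun ω => (Z ω, X ω)) ω)) :=
              mul_le_mul_of_nonneg_left h4 hp0
          _ = _ := by ring
      · have := hcp X ω h3
        positivity
  refine h2.trans ?_
  rw [← Finset.mul_sum]
  calc η * ∑ ω, p ω * (g (Y ω) (Z ω, X ω) / cpr p Y (fun ω => (Z ω, X ω)) ω) ≤ η * 1 :=
        mul_le_mul_of_nonneg_left h1 hη
    _ = η := mul_one η

end Pool.KPO
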